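import Mathlib
import Pool.Agent.MP_e18349_al.Defs

-- part MP_e18349_al.Coprod
section

/-! The localization functor to the derived category preserves coproducts when coproducts are
exact. -/

namespace Pool.Agent.MP_e18349_al

open CategoryTheory Limits HomologicalComplex

universe w v u

variable {C : Type u} [Category.{v} C] [Abelian C] {J : Type}
  [HasColimitsOfShape (Discrete J) C] [HasExactColimitsOfShape (Discrete J) C]

/-- A family of complexes as a complex of families. -/
@[simps]
noncomputable def famComplex (X : J → CochainComplex C ℤ) :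
    CochainComplex (Discrete J ⥤ C) ℤ where
  X n := Discrete.functor fun j => (X j).X n
  d n m := Discrete.natTrans fun j => (X j.as).d n m
  shape n m h := by
    ext j
    exact (X j.as).shape n m h
  d_comp_d' n m k _ _ := by
    ext j
    exact (X j.as).d_comp_d n m k

/-- A family of maps of complexes as a map of complexes of families. -/
@[simps]
noncomputable def famMap {Z X : J → CochainComplex C ℤ} (s : ∀ j, Z j ⟶ X j) :
    famComplex Z ⟶ famComplex X where
  f n := Discrete.natTrans fun j => (s j.as).f n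
  comm' n m _ := by
    ext j
    exact (s j.as).comm n m

/-- The termwise coproduct. -/
noncomputable def sumComplex (X : J → CochainComplex C ℤ) : CochainComplex C ℤ :=
  ((colim (J := Discrete J) (C := C)).mapHomologicalComplex _).obj (famComplex X)

/-- The inclusions into the termwise coproduct. -/
noncomputable def sumι (X : J → CochainComplex C ℤ) (j : J) : X j ⟶ sumComplex X where
  f n := colimit.ι (Discrete.functor fun j => (X j).X n) ⟨j⟩
  comm' n m _ := ι_colimMap ((famComplex X).d n m) ⟨j⟩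

/-- The map induced on termwise coproducts. -/
noncomputable def sumMap {Z X : J → CochainComplex C ℤ} (s : ∀ j, Z j ⟶ X j) :
    sumComplex Z ⟶ sumComplex X :=
  ((colim (J := Discrete J) (C := C)).mapHomologicalComplex _).map (famMap s)

theorem sumι_sumMap {Z X : J → CochainComplex C ℤ} (s : ∀ j, Z j ⟶ X j) (j : J) :
    sumι Z j ≫ sumMap s = s j ≫ sumι X j := by
  ext n
  exact ι_colimMap ((famMap s).f n) ⟨j⟩

theorem quasiIso_sumMap {Z X : J → CochainComplex C ℤ} (s : ∀ j, Z j ⟶ X j)
    (hs : ∀ j, QuasiIso (s j)) : QuasiIso (sumMap s) := by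
  have h1 : QuasiIso (famMap s) := by
    rw [HomologicalComplex.quasiIso_iff_evaluation]
    intro j
    exact hs j.as
  exact HomologicalComplex.quasiIso_map_of_preservesHomology _ _

theorem sum_hom_ext {X : J → CochainComplex C ℤ} {n : ℤ} {A : C}
    {f g : (sumComplex X).X n ⟶ A}
    (h : ∀ j, (sumι X j).f n ≫ f = (sumι X j).f n ≫ g) : f = g :=
  colimit.hom_ext (F := Discrete.functor fun j => (X j).X n) fun j => h j.as

/-- Descent of a family of maps in one degree. -/
noncomputable def sumDescX {X : J → CochainComplex C ℤ} {n : ℤ} {A : C}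
    (g : ∀ j, (X j).X n ⟶ A) : (sumComplex X).X n ⟶ A :=
  colimit.desc (Discrete.functor fun j => (X j).X n) (Cofan.mk A g)

theorem sumι_sumDescX {X : J → CochainComplex C ℤ} {n : ℤ} {A : C}
    (g : ∀ j, (X j).X n ⟶ A) (j : J) : (sumι X j).f n ≫ sumDescX g = g j :=
  colimit.ι_desc (F := Discrete.functor fun j => (X j).X n) (Cofan.mk A g) ⟨j⟩

/-- Descent of a family of maps of complexes. -/
noncomputable def sumDesc {X : J → CochainComplex C ℤ} {Y : CochainComplex C ℤ}
    (g : ∀ j, X j ⟶ Y) : sumComplex X ⟶ Y where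
  f n := sumDescX fun j => (g j).f n
  comm' n m _ := by
    apply sum_hom_ext
    intro j
    rw [← Category.assoc, sumι_sumDescX, ← Category.assoc, (sumι X j).comm, Category.assoc,
      sumι_sumDescX, (g j).comm]

theorem sumι_sumDesc {X : J → CochainComplex C ℤ} {Y : CochainComplex C ℤ}
    (g : ∀ j, X j ⟶ Y) (j : J) : sumι X j ≫ sumDesc g = g j := by
  ext n
  exact sumι_sumDescX (fun j => (g j).f n) j

/-- The termwise coproduct is a coproduct. -/
noncomputable def sumIsColimit (X : J → CochainComplex C ℤ) :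
    IsColimit (Cofan.mk (sumComplex X) (sumι X)) :=
  Cofan.IsColimit.mk _ (fun t => sumDesc t.inj) (fun t j => sumι_sumDesc _ j) (fun t m hm => by
    ext n
    apply sum_hom_ext
    intro j
    rw [← comp_f, ← comp_f, sumι_sumDesc]
    exact congrArg (fun φ => Hom.f φ n) (hm j))

/-- Null-homotopies assemble on a coproduct. -/
noncomputable def sumHomotopy {X : J → CochainComplex C ℤ} {Y : CochainComplex C ℤ}
    (g : sumComplex X ⟶ Y) (h : ∀ j, Homotopy (sumι X j ≫ g) 0) : Homotopy g 0 where
  hom n m := sumDescX fun j => (h j).hom n m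
  zero n m hnm := by
    apply sum_hom_ext
    intro j
    rw [sumι_sumDescX, (h j).zero n m hnm, comp_zero]
  comm n := by
    apply sum_hom_ext
    intro j
    have e := (h j).comm n
    rw [dNext_eq _ (show (ComplexShape.up ℤ).Rel n (n + 1) by simp),
      prevD_eq _ (show (ComplexShape.up ℤ).Rel (n - 1) n by simp)] at e ⊢
    rw [comp_f] at e
    rw [e, Preadditive.comp_add, Preadditive.comp_add, ← Category.assoc, ← Category.assoc,
      sumι_sumDescX, (sumι X j).comm, Category.assoc, sumι_sumDescX]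
    simp

variable [HasDerivedCategory.{w} C]

open DerivedCategory

theorem exists_homotopy_of_Q_map_eq_zero {X Y : CochainComplex C ℤ} (f : X ⟶ Y)
    (hf : Q.map f = 0) :
    ∃ (Z : CochainComplex C ℤ) (s : Z ⟶ X), QuasiIso s ∧ Nonempty (Homotopy (s ≫ f) 0) := by
  have h1 : Qh.map ((HomotopyCategory.quotient _ _).map f) = Qh.map 0 := by
    rw [Qh.map_zero, ← cancel_mono ((quotientCompQhIso C).hom.app Y),
      quotientCompQhIso_hom_naturality, hf, comp_zero, zero_comp]
  rw [MorphismProperty.map_eq_iff_precomp Qh (HomotopyCategory.quasiIso C _)] at h1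
  obtain ⟨Z, s, hs, h⟩ := h1
  obtain ⟨Z, rfl⟩ := HomotopyCategory.quotient_obj_surjective Z
  obtain ⟨s, rfl⟩ := (HomotopyCategory.quotient _ _).map_surjective s
  refine ⟨Z, s, ?_, ?_⟩
  · rwa [HomotopyCategory.quotient_map_mem_quasiIso_iff] at hs
  · rw [← HomotopyCategory.quotient_map_eq_zero_iff, Functor.map_comp, h, comp_zero]

theorem Q_sum_hom_ext_zero (X : J → CochainComplex C ℤ) {Y : DerivedCategory C}
    (φ : Q.obj (sumComplex X) ⟶ Y) (hφ : ∀ j, Q.map (sumι X j) ≫ φ = 0) : φ = 0 := by
  obtain ⟨Y', ⟨e⟩⟩ := (Functor.EssSurj.mem_essImage (F := Q) Y)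
  obtain ⟨Y'', g, s, hs, h⟩ := left_fac (φ ≫ e.inv)
  have h1 : ∀ j, Q.map (sumι X j ≫ g) = 0 := by
    intro j
    have : Q.map g = φ ≫ e.inv ≫ Q.map s := by
      rw [← Category.assoc, h]; simp
    rw [Q.map_comp, this, ← Category.assoc, hφ, zero_comp]
  choose Z t ht hh using fun j => exists_homotopy_of_Q_map_eq_zero _ (h1 j)
  have h2 : Homotopy (sumMap t ≫ g) 0 := sumHomotopy _ fun j => by
    rw [← Category.assoc, sumι_sumMap, Category.assoc]
    exact (hh j).some
  have h3 := Q_map_eq_of_homotopy C h2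
  have := quasiIso_sumMap t ht
  rw [Q.map_zero, Q.map_comp] at h3
  have h4 : Q.map g = 0 := by
    rw [← cancel_epi (Q.map (sumMap t)), h3, comp_zero]
  rw [← cancel_mono e.inv, h, h4, zero_comp, zero_comp]

theorem Q_sum_exists_desc (X : J → CochainComplex C ℤ) {Y : DerivedCategory C}
    (φ : ∀ j, Q.obj (X j) ⟶ Y) :
    ∃ ψ : Q.obj (sumComplex X) ⟶ Y, ∀ j, Q.map (sumι X j) ≫ ψ = φ j := by
  obtain ⟨Y', ⟨e⟩⟩ := (Functor.EssSurj.mem_essImage (F := Q) Y)
  choose Z s hs g h using fun j => right_fac (φ j ≫ e.inv)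
  have := quasiIso_sumMap s fun j => (isIso_Q_map_iff_quasiIso C _).1 (hs j)
  refine ⟨inv (Q.map (sumMap s)) ≫ Q.map (sumDesc g) ≫ e.hom, fun j => ?_⟩
  have h1 : Q.map (sumι X j) ≫ inv (Q.map (sumMap s)) =
      inv (Q.map (s j)) ≫ Q.map (sumι Z j) := by
    rw [IsIso.comp_inv_eq, Category.assoc, IsIso.eq_inv_comp, ← Q.map_comp, ← Q.map_comp,
      sumι_sumMap]
  rw [← Category.assoc, h1, Category.assoc, ← Category.assoc (Q.map (sumι Z j)), ← Q.map_comp,
    sumι_sumDesc, ← Category.assoc, ← h j]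
  simp

/-- The image of the termwise coproduct is a coproduct in the derived category. -/
noncomputable def QsumIsColimit (X : J → CochainComplex C ℤ) :
    IsColimit (Cofan.mk (f := fun j => Q.obj (X j)) (Q.obj (sumComplex X))
      (fun j => Q.map (sumι X j))) :=
  Cofan.IsColimit.mk _ (fun t => (Q_sum_exists_desc X t.inj).choose)
    (fun t j => (Q_sum_exists_desc X t.inj).choose_spec j) (fun t m hm => by
      rw [← sub_eq_zero]
      apply Q_sum_hom_ext_zero
      intro j
      rw [Preadditive.comp_sub, (Q_sum_exists_desc X t.inj).choose_spec j, sub_eq_zero]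
      exact hm j)

/-- A class of objects of the derived category closed under coproducts contains the image of a
coproduct of objects of `C` whose images it contains. -/
theorem prop_single_of_isColimit (P : ObjectProperty (DerivedCategory C))
    [P.IsClosedUnderIsomorphisms] [P.IsClosedUnderColimitsOfShape (Discrete J)]
    (M : J → C) (c : Cofan M) (hc : IsColimit c)
    (hM : ∀ j, P ((singleFunctor C 0).obj (M j))) : P ((singleFunctor C 0).obj c.pt) := by
  let X : J → CochainComplex C ℤ := fun j => (single C (ComplexShape.up ℤ) 0).obj (M j)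
  have h1 : P (Q.obj (sumComplex X)) :=
    P.prop_of_isColimit (QsumIsColimit X) fun j => hM j.as
  have h2 := isColimitCofanMkObjOfIsColimit (single C (ComplexShape.up ℤ) 0) M c.inj
    (hc.ofIsoColimit (Cofan.ext (Iso.refl _) (by simp)))
  have e := (sumIsColimit X).coconePointUniqueUpToIso h2
  exact P.prop_of_iso (Q.mapIso e) h1

end Pool.Agent.MP_e18349_al

end

-- part MP_e18349_al.Modules
section

/-! Classes of modules closed under short exact sequences and direct sums. -/

namespace Pool.Agent.MP_e18349_al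

open Function DirectSum

variable {R : Type} [CommRing R]

/-- A class of modules closed under isomorphism, two-out-of-three on short exact sequences and
direct sums. -/
structure Good (G : ModuleCat.{0} R → Prop) : Prop where
  iso : ∀ {A B : Type} [AddCommGroup A] [Module R A] [AddCommGroup B] [Module R B]
    (_ : A ≃ₗ[R] B), G (ModuleCat.of R A) → G (ModuleCat.of R B)
  ses₁ : ∀ {A B C : Type} [AddCommGroup A] [Module R A] [AddCommGroup B] [Module R B]
    [AddCommGroup C] [Module R C] (f : A →ₗ[R] B) (g : B →ₗ[R] C), Injective f → Surjective g →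
    Exact f g → G (ModuleCat.of R B) → G (ModuleCat.of R C) → G (ModuleCat.of R A)
  ses₂ : ∀ {A B C : Type} [AddCommGroup A] [Module R A] [AddCommGroup B] [Module R B]
    [AddCommGroup C] [Module R C] (f : A →ₗ[R] B) (g : B →ₗ[R] C), Injective f → Surjective g →
    Exact f g → G (ModuleCat.of R A) → G (ModuleCat.of R C) → G (ModuleCat.of R B)
  ses₃ : ∀ {A B C : Type} [AddCommGroup A] [Module R A] [AddCommGroup B] [Module R B]
    [AddCommGroup C] [Module R C] (f : A →ₗ[R] B) (g : B →ₗ[R] C), Injective f → Surjective g →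
    Exact f g → G (ModuleCat.of R A) → G (ModuleCat.of R B) → G (ModuleCat.of R C)
  dsum : ∀ (ι : Type) (M : ι → Type) [∀ i, AddCommGroup (M i)] [∀ i, Module R (M i)],
    (∀ i, G (ModuleCat.of R (M i))) → G (ModuleCat.of R (⨁ i, M i))

namespace Good

variable {G : ModuleCat.{0} R → Prop} (hG : Good G)
include hG

theorem of_killed (m : Ideal R) [m.IsMaximal] (hm : G (ModuleCat.of R (R ⧸ m)))
    (M : Type) [AddCommGroup M] [Module R M] (hM : ∀ r ∈ m, ∀ x : M, r • x = 0) :
    G (ModuleCat.of R M) := by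
  classical
  have ht : Module.IsTorsionBySet R M m := fun x r => hM r r.2 x
  letI := ht.module
  haveI : IsScalarTower R (R ⧸ m) M := ht.isScalarTower
  letI := Ideal.Quotient.field m
  let b := Module.Basis.ofVectorSpace (R ⧸ m) M
  have e1 := (b.repr.restrictScalars R).symm
  have e2 := finsuppLEquivDirectSum R (R ⧸ m) (Module.Basis.ofVectorSpaceIndex (R ⧸ m) M)
  exact hG.iso (e2.symm.trans e1) (hG.dsum _ _ fun _ => hm)

theorem of_killed_pow (m : Ideal R) [m.IsMaximal] (hm : G (ModuleCat.of R (R ⧸ m))) (j : ℕ) :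
    ∀ (M : Type) [AddCommGroup M] [Module R M], (∀ r ∈ m ^ j, ∀ x : M, r • x = 0) →
    G (ModuleCat.of R M) := by
  induction j with
  | zero =>
    intro M _ _ hM
    exact hG.of_killed m hm M fun r _ x => hM r (by simp) x
  | succ j ih =>
    intro M _ _ hM
    let N : Submodule R M := m • ⊤
    refine hG.ses₂ N.subtype N.mkQ N.injective_subtype N.mkQ_surjective
      (LinearMap.exact_subtype_mkQ N) (ih N ?_) (hG.of_killed m hm _ ?_)
    · rintro r hr ⟨x, hx⟩
      apply Subtype.ext
      change r • x = 0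
      refine Submodule.smul_induction_on hx (fun s hs y _ => ?_) (fun y z hy hz => ?_)
      · rw [smul_smul]
        exact hM _ (by rw [pow_succ]; exact Ideal.mul_mem_mul hr hs) y
      · rw [smul_add, hy, hz, add_zero]
    · intro r hr x
      obtain ⟨x, rfl⟩ := N.mkQ_surjective x
      rw [← map_smul, Submodule.mkQ_apply, Submodule.Quotient.mk_eq_zero]
      exact Submodule.smul_mem_smul hr Submodule.mem_top

theorem of_union (M : Type) [AddCommGroup M] [Module R M] (N : ℕ → Submodule R M)
    (hmono : Monotone N) (hall : ∀ x, ∃ j, x ∈ N j) (hN : ∀ j, G (ModuleCat.of R (N j))) :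
    G (ModuleCat.of R M) := by
  classical
  let inc : ∀ j, N j →ₗ[R] N (j + 1) := fun j => Submodule.inclusion (hmono (Nat.le_succ j))
  let sh : (⨁ j, N j) →ₗ[R] (⨁ j, N j) :=
    DirectSum.toModule R ℕ _ fun j => (DirectSum.lof R ℕ (fun j => N j) (j + 1)) ∘ₗ inc j
  let g : (⨁ j, N j) →ₗ[R] M := DirectSum.toModule R ℕ _ fun j => (N j).subtype
  let f : (⨁ j, N j) →ₗ[R] (⨁ j, N j) := LinearMap.id - sh
  have hsh : ∀ j (a : N j), sh (DirectSum.lof R ℕ (fun j => N j) j a) =
      DirectSum.lof R ℕ (fun j => N j) (j + 1) (inc j a) := fun j a => by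
    simp [sh]
  have hg : ∀ j (a : N j), g (DirectSum.lof R ℕ (fun j => N j) j a) = a := fun j a => by
    simp [g]
  have h0 : ∀ x, sh x 0 = 0 := by
    intro x
    induction x using DirectSum.induction_on with
    | zero => simp
    | of j a =>
      rw [← DirectSum.lof_eq_of R, hsh, DirectSum.lof_eq_of]
      exact DirectSum.of_eq_of_ne _ _ _ (by omega)
    | add x y hx hy => rw [map_add, DirectSum.add_apply, hx, hy, add_zero]
  have h1 : ∀ x j, sh x (j + 1) = inc j (x j) := by
    intro x j
    induction x using DirectSum.induction_on with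
    | zero => simp
    | of i a =>
      rw [← DirectSum.lof_eq_of R, hsh, DirectSum.lof_eq_of, DirectSum.lof_eq_of]
      by_cases h : i = j
      · subst h
        rw [DirectSum.of_eq_same, DirectSum.of_eq_same]
      · rw [DirectSum.of_eq_of_ne _ _ _ (by omega), DirectSum.of_eq_of_ne _ _ _ (Ne.symm h),
          map_zero]
    | add x y hx hy => rw [map_add, DirectSum.add_apply, hx, hy, DirectSum.add_apply, map_add]
  have hinj : Injective f := by
    rw [injective_iff_map_eq_zero]
    intro x hx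
    have hx' : x = sh x := sub_eq_zero.1 hx
    ext j : 1
    induction j with
    | zero => rw [hx']; exact h0 x
    | succ j ih =>
      change x (j + 1) = 0
      change x j = 0 at ih
      rw [hx', h1, ih, map_zero]
  have hsurj : Surjective g := by
    intro x
    obtain ⟨j, hj⟩ := hall x
    exact ⟨_, hg j ⟨x, hj⟩⟩
  have hstep : ∀ j k (a : M) (ha : a ∈ N j) (hjk : j ≤ k),
      DirectSum.lof R ℕ (fun j => N j) j ⟨a, ha⟩ -
        DirectSum.lof R ℕ (fun j => N j) k ⟨a, hmono hjk ha⟩ ∈ LinearMap.range f := by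
    intro j k a ha hjk
    induction k, hjk using Nat.le_induction with
    | base => simp
    | succ k hjk ih =>
      have h2 : DirectSum.lof R ℕ (fun j => N j) k ⟨a, hmono hjk ha⟩ -
          DirectSum.lof R ℕ (fun j => N j) (k + 1) ⟨a, hmono (Nat.le_succ_of_le hjk) ha⟩ ∈
            LinearMap.range f := ⟨DirectSum.lof R ℕ (fun j => N j) k ⟨a, hmono hjk ha⟩, by
        simp only [f, LinearMap.sub_apply, LinearMap.id_apply, hsh]; rfl⟩
      simpa using add_mem ih h2
  have hred : ∀ y : ⨁ j, N j, ∃ j, ∃ a : N j,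
      y - DirectSum.lof R ℕ (fun j => N j) j a ∈ LinearMap.range f := by
    intro y
    induction y using DirectSum.induction_on with
    | zero => exact ⟨0, 0, by simp⟩
    | of i a => exact ⟨i, a, by rw [DirectSum.lof_eq_of]; simp⟩
    | add x y hx hy =>
      obtain ⟨i, ⟨a, ha⟩, hx⟩ := hx
      obtain ⟨j, ⟨b, hb⟩, hy⟩ := hy
      refine ⟨max i j, ⟨a, hmono (le_max_left i j) ha⟩ + ⟨b, hmono (le_max_right i j) hb⟩, ?_⟩
      have := add_mem (add_mem hx hy)
        (add_mem (hstep i _ a ha (le_max_left i j)) (hstep j _ b hb (le_max_right i j)))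
      convert this using 1
      rw [map_add]
      abel
  have hgf : ∀ x, g (f x) = 0 := by
    intro x
    induction x using DirectSum.induction_on with
    | zero => simp
    | of i a =>
      rw [← DirectSum.lof_eq_of R]
      simp only [f, LinearMap.sub_apply, LinearMap.id_apply, hsh, map_sub, hg]
      exact sub_self _
    | add x y hx hy => rw [map_add, map_add, hx, hy, add_zero]
  have hex : Exact f g := by
    intro y
    constructor
    · intro hy
      obtain ⟨j, a, z, hz⟩ := hred y
      have h3 := hgf z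
      rw [hz, map_sub, hy, hg, zero_sub, neg_eq_zero] at h3
      have h4 : a = 0 := Subtype.ext h3
      rw [h4, map_zero, sub_zero] at hz
      exact ⟨z, hz⟩
    · rintro ⟨z, rfl⟩
      exact hgf z
  exact hG.ses₃ f g hinj hsurj hex (hG.dsum _ _ hN) (hG.dsum _ _ hN)

theorem of_locally_killed (m : Ideal R) [m.IsMaximal] (hm : G (ModuleCat.of R (R ⧸ m)))
    (M : Type) [AddCommGroup M] [Module R M] (hM : ∀ x : M, ∃ j, ∀ r ∈ m ^ j, r • x = 0) :
    G (ModuleCat.of R M) := by
  refine hG.of_union M (fun j => Submodule.torsionBySet R M (m ^ j : Ideal R)) ?_ ?_ ?_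
  · intro i j hij x hx
    rw [Submodule.mem_torsionBySet_iff] at hx ⊢
    exact fun r => hx ⟨r, Ideal.pow_le_pow_right hij r.2⟩
  · intro x
    obtain ⟨j, hj⟩ := hM x
    exact ⟨j, (Submodule.mem_torsionBySet_iff _ _).2 fun r => hj r r.2⟩
  · intro j
    refine hG.of_killed_pow m hm j _ fun r hr x => Subtype.ext ?_
    exact (Submodule.mem_torsionBySet_iff _ _).1 x.2 ⟨r, hr⟩

/-- The quotient by a prime, as a submodule of its residue field. -/
theorem quotient_prime (m : Ideal R) [m.IsMaximal] (hm : G (ModuleCat.of R (R ⧸ m)))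
    (p : Ideal R) [p.IsPrime] (hp : G (ModuleCat.of R p.ResidueField))
    (h : ∀ b, b ∉ p → ∃ j, ∀ r ∈ m ^ j, ∃ w, r - b * w ∈ p) :
    G (ModuleCat.of R (R ⧸ p)) := by
  let f : (R ⧸ p) →ₗ[R] p.ResidueField :=
    (IsScalarTower.toAlgHom R (R ⧸ p) p.ResidueField).toLinearMap
  have hf : Injective f := IsFractionRing.injective (R ⧸ p) p.ResidueField
  refine hG.ses₁ f (LinearMap.range f).mkQ hf (Submodule.mkQ_surjective _)
    (LinearMap.exact_map_mkQ_range f) hp (hG.of_locally_killed m hm _ fun x => ?_)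
  obtain ⟨x, rfl⟩ := (LinearMap.range f).mkQ_surjective x
  obtain ⟨a, b, hb, rfl⟩ := IsFractionRing.div_surjective (A := R ⧸ p) x
  obtain ⟨b, rfl⟩ := Ideal.Quotient.mk_surjective b
  have hb0 : Ideal.Quotient.mk p b ≠ 0 := nonZeroDivisors.ne_zero hb
  obtain ⟨j, hj⟩ := h b (fun hbp => hb0 (Ideal.Quotient.eq_zero_iff_mem.2 hbp))
  refine ⟨j, fun r hr => ?_⟩
  obtain ⟨w, hw⟩ := hj r hr
  rw [← map_smul, Submodule.mkQ_apply, Submodule.Quotient.mk_eq_zero]
  refine ⟨Ideal.Quotient.mk p w * a, ?_⟩
  have h1 : Ideal.Quotient.mk p r = Ideal.Quotient.mk p b * Ideal.Quotient.mk p w := by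
    rw [← map_mul, Ideal.Quotient.eq]; exact hw
  have h2 : algebraMap (R ⧸ p) p.ResidueField (Ideal.Quotient.mk p b) ≠ 0 := by
    rwa [ne_eq, FaithfulSMul.algebraMap_eq_zero_iff]
  change algebraMap (R ⧸ p) p.ResidueField _ = _
  rw [Algebra.smul_def, IsScalarTower.algebraMap_apply R (R ⧸ p) p.ResidueField r,
    Ideal.Quotient.algebraMap_eq, h1, map_mul, map_mul]
  field_simp

theorem quotient_maximal (m : Ideal R) [m.IsMaximal] (hm : G (ModuleCat.of R m.ResidueField)) :
    G (ModuleCat.of R (R ⧸ m)) :=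
  hG.iso (LinearEquiv.ofBijective
    (IsScalarTower.toAlgHom R (R ⧸ m) m.ResidueField).toLinearMap
    (Ideal.bijective_algebraMap_quotient_residueField m)).symm hm

end Good

end Pool.Agent.MP_e18349_al

end

-- part MP_e18349_al.Ring
section

/-! Countably many formal branches glued at one point. -/

namespace Pool.Agent.MP_e18349_al

open Function DirectSum PowerSeries

/-- Sequences of power series with one common constant term which are eventually constant. -/
noncomputable def axesSubring : Subring (ℕ → PowerSeries ℚ) where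
  carrier := {a | ∃ c : ℚ, (∀ n, constantCoeff (a n) = c) ∧ ∃ N, ∀ n, N ≤ n → a n = C c}
  mul_mem' := by
    rintro a b ⟨c, hc, N, hN⟩ ⟨d, hd, M, hM⟩
    refine ⟨c * d, fun n => by simp [hc, hd], max N M, fun n hn => ?_⟩
    simp [hN n (le_of_max_le_left hn), hM n (le_of_max_le_right hn)]
  one_mem' := ⟨1, fun n => by simp, 0, fun n _ => by simp⟩
  add_mem' := by
    rintro a b ⟨c, hc, N, hN⟩ ⟨d, hd, M, hM⟩
    refine ⟨c + d, fun n => by simp [hc, hd], max N M, fun n hn => ?_⟩
    simp [hN n (le_of_max_le_left hn), hM n (le_of_max_le_right hn)]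
  zero_mem' := ⟨0, fun n => by simp, 0, fun n _ => by simp⟩
  neg_mem' := by
    rintro a ⟨c, hc, N, hN⟩
    exact ⟨-c, fun n => by simp [hc], N, fun n hn => by simp [hN n hn]⟩

/-- The ring. -/
abbrev Axes : Type := axesSubring

/-- The projection to the `n`-th branch. -/
noncomputable def proj (n : ℕ) : Axes →+* PowerSeries ℚ :=
  (Pi.evalRingHom (fun _ => PowerSeries ℚ) n).comp axesSubring.subtype

theorem proj_apply (n : ℕ) (a : Axes) : proj n a = a.1 n := rfl

theorem axes_ext {a b : Axes} (h : ∀ n, proj n a = proj n b) : a = b :=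
  Subtype.ext (funext h)

/-- The common constant term. -/
noncomputable def aug : Axes →+* ℚ := constantCoeff.comp (proj 0)

theorem constantCoeff_proj (n : ℕ) (a : Axes) : constantCoeff (proj n a) = aug a := by
  obtain ⟨c, hc, -⟩ := a.2
  change constantCoeff (a.1 n) = constantCoeff (a.1 0)
  rw [hc, hc]

theorem eventually_proj (a : Axes) : ∃ N, ∀ n, N ≤ n → proj n a = C (aug a) := by
  obtain ⟨c, hc, N, hN⟩ := a.2
  refine ⟨N, fun n hn => ?_⟩
  change a.1 n = C (constantCoeff (a.1 0))
  rw [hc, hN n hn]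

/-- A lift of a power series on the `n`-th branch. -/
noncomputable def lift (n : ℕ) (w : PowerSeries ℚ) : Axes :=
  ⟨fun i => if i = n then w else C (constantCoeff w), constantCoeff w,
    fun i => by dsimp only; split_ifs <;> simp, n + 1, fun i hi => if_neg (by omega)⟩

theorem proj_lift (n : ℕ) (w : PowerSeries ℚ) : proj n (lift n w) = w := by
  simp [proj_apply, lift]

theorem proj_lift_ne {n i : ℕ} (h : i ≠ n) (w : PowerSeries ℚ) :
    proj i (lift n w) = C (constantCoeff w) := by
  simp [proj_apply, lift, h]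

theorem aug_surjective : Surjective aug := fun c =>
  ⟨lift 0 (C c), by simp [aug, proj_lift]⟩

/-- The maximal ideal. -/
noncomputable def mx : Ideal Axes := RingHom.ker aug

/-- The minimal primes. -/
noncomputable def pr (n : ℕ) : Ideal Axes := RingHom.ker (proj n)

instance mx_isMaximal : mx.IsMaximal := RingHom.ker_isMaximal_of_surjective aug aug_surjective

instance pr_isPrime (n : ℕ) : (pr n).IsPrime := RingHom.ker_isPrime _

theorem mem_mx {a : Axes} : a ∈ mx ↔ aug a = 0 := RingHom.mem_ker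

theorem mem_pr {n : ℕ} {a : Axes} : a ∈ pr n ↔ proj n a = 0 := RingHom.mem_ker

theorem pr_le_mx (n : ℕ) : pr n ≤ mx := fun a ha => by
  rw [mem_mx, ← constantCoeff_proj n, mem_pr.1 ha, map_zero]

/-- The coordinate of the `n`-th branch. -/
noncomputable def tau (n : ℕ) : Axes := lift n X

theorem proj_tau (n : ℕ) : proj n (tau n) = X := proj_lift n X

theorem proj_tau_ne {n i : ℕ} (h : i ≠ n) : proj i (tau n) = 0 := by
  rw [tau, proj_lift_ne h]; simp

theorem tau_mem_mx (n : ℕ) : tau n ∈ mx := by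
  rw [mem_mx, ← constantCoeff_proj n, proj_tau]; simp

theorem tau_not_mem_pr (n : ℕ) : tau n ∉ pr n := by
  rw [mem_pr, proj_tau]; exact X_ne_zero

theorem eventually_mem_pr {a : Axes} (ha : a ∈ mx) : ∃ N, ∀ n, N ≤ n → a ∈ pr n := by
  obtain ⟨N, hN⟩ := eventually_proj a
  exact ⟨N, fun n hn => by rw [mem_pr, hN n hn, mem_mx.1 ha, map_zero]⟩

theorem X_pow_dvd_proj (n j : ℕ) : ∀ r ∈ mx ^ j, (X : PowerSeries ℚ) ^ j ∣ proj n r := by
  induction j with
  | zero => intro r _; simp
  | succ j ih =>
    intro r hr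
    rw [pow_succ] at hr
    refine Submodule.mul_induction_on hr (fun a ha b hb => ?_) (fun a b ha hb => ?_)
    · rw [map_mul, pow_succ]
      refine mul_dvd_mul (ih a ha) ?_
      rw [X_dvd_iff, constantCoeff_proj, mem_mx.1 hb]
    · rw [map_add]; exact dvd_add ha hb

theorem pr_cond (n : ℕ) (b : Axes) (hb : b ∉ pr n) :
    ∃ j, ∀ r ∈ mx ^ j, ∃ w, r - b * w ∈ pr n := by
  rw [mem_pr] at hb
  obtain ⟨j, hj⟩ := IsDiscreteValuationRing.associated_pow_irreducible hb
    (PowerSeries.X_irreducible (R := ℚ))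
  refine ⟨j, fun r hr => ?_⟩
  obtain ⟨w, hw⟩ := hj.dvd.trans (X_pow_dvd_proj n j r hr)
  exact ⟨lift n w, by rw [mem_pr, map_sub, map_mul, proj_lift, hw, sub_self]⟩

/-- Multiplication by the `n`-th coordinate, on the `n`-th branch. -/
noncomputable def mulTau (n : ℕ) : (Axes ⧸ pr n) →ₗ[Axes] Axes :=
  (pr n).liftQ (LinearMap.toSpanSingleton Axes Axes (tau n)) (by
    intro a ha
    rw [LinearMap.mem_ker, LinearMap.toSpanSingleton_apply, smul_eq_mul]
    apply axes_ext
    intro i
    by_cases h : i = n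
    · subst h
      rw [map_mul, mem_pr.1 ha, zero_mul, map_zero]
    · rw [map_mul, proj_tau_ne h, mul_zero, map_zero])

theorem mulTau_mk (n : ℕ) (a : Axes) : mulTau n (Submodule.Quotient.mk a) = a * tau n := rfl

/-- The sum of the branches, mapping onto the maximal ideal. -/
noncomputable def sumTau : (⨁ n, Axes ⧸ pr n) →ₗ[Axes] Axes :=
  DirectSum.toModule Axes ℕ Axes mulTau

theorem sumTau_lof (n : ℕ) (x : Axes ⧸ pr n) :
    sumTau (DirectSum.lof Axes ℕ (fun n => Axes ⧸ pr n) n x) = mulTau n x := by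
  simp [sumTau]

theorem proj_sumTau (n : ℕ) (x : ⨁ n, Axes ⧸ pr n) :
    proj n (sumTau x) = proj n (mulTau n (x n)) := by
  induction x using DirectSum.induction_on with
  | zero => simp
  | of i a =>
    rw [← DirectSum.lof_eq_of Axes, sumTau_lof, DirectSum.lof_eq_of]
    by_cases h : i = n
    · subst h
      rw [DirectSum.of_eq_same]
    · rw [DirectSum.of_eq_of_ne _ _ _ (Ne.symm h), map_zero, map_zero]
      obtain ⟨a, rfl⟩ := Submodule.Quotient.mk_surjective _ a
      rw [mulTau_mk, map_mul, proj_tau_ne (Ne.symm h), mul_zero]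
  | add x y hx hy => rw [map_add, map_add, hx, hy, DirectSum.add_apply, map_add, map_add]

theorem sumTau_injective : Injective sumTau := by
  rw [injective_iff_map_eq_zero]
  intro x hx
  ext n : 1
  change x n = 0
  have h := proj_sumTau n x
  obtain ⟨a, ha⟩ := Submodule.Quotient.mk_surjective _ (x n)
  rw [hx, map_zero, ← ha, mulTau_mk, map_mul, proj_tau] at h
  rw [← ha, Submodule.Quotient.mk_eq_zero, mem_pr]
  exact (mul_eq_zero.1 h.symm).resolve_right X_ne_zero

theorem mem_range_sumTau (N : ℕ) : ∀ a ∈ mx, (∀ n, N ≤ n → a ∈ pr n) →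
    a ∈ LinearMap.range sumTau := by
  induction N with
  | zero =>
    intro a _ h
    have : a = 0 := axes_ext fun n => by rw [mem_pr.1 (h n (Nat.zero_le n)), map_zero]
    rw [this]; exact zero_mem _
  | succ N ih =>
    intro a ha h
    have h1 : (X : PowerSeries ℚ) ∣ proj N a := by
      rw [X_dvd_iff, constantCoeff_proj, mem_mx.1 ha]
    obtain ⟨w, hw⟩ := h1
    have h2 : lift N w * tau N ∈ LinearMap.range sumTau :=
      ⟨DirectSum.lof Axes ℕ (fun n => Axes ⧸ pr n) N (Submodule.Quotient.mk (lift N w)), by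
        rw [sumTau_lof, mulTau_mk]⟩
    have h3 := ih (a - lift N w * tau N)
      (sub_mem ha (Ideal.mul_mem_left _ _ (tau_mem_mx N))) (fun n hn => by
        rw [mem_pr, map_sub, map_mul]
        rcases hn.eq_or_lt with rfl | hlt
        · rw [proj_lift, proj_tau, hw, mul_comm, sub_self]
        · rw [proj_tau_ne (by omega), mem_pr.1 (h n hlt), mul_zero, sub_self])
    simpa using add_mem h3 h2

theorem exact_sumTau : Exact sumTau (Submodule.mkQ mx) := by
  intro a
  rw [Submodule.mkQ_apply, Submodule.Quotient.mk_eq_zero]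
  constructor
  · intro ha
    obtain ⟨N, hN⟩ := eventually_mem_pr ha
    exact mem_range_sumTau N a ha hN
  · rintro ⟨x, rfl⟩
    induction x using DirectSum.induction_on with
    | zero => simp
    | of i a =>
      rw [← DirectSum.lof_eq_of Axes, sumTau_lof]
      obtain ⟨a, rfl⟩ := Submodule.Quotient.mk_surjective _ a
      rw [mulTau_mk]
      exact Ideal.mul_mem_left _ _ (tau_mem_mx i)
    | add x y hx hy => rw [map_add]; exact add_mem hx hy

theorem good_axes {G : ModuleCat.{0} Axes → Prop} (hG : Good G)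
    (h : ∀ p : PrimeSpectrum Axes, G (ModuleCat.of Axes p.asIdeal.ResidueField)) :
    G (ModuleCat.of Axes Axes) := by
  have hm : G (ModuleCat.of Axes (Axes ⧸ mx)) := hG.quotient_maximal mx (h ⟨mx, inferInstance⟩)
  have hp : ∀ n, G (ModuleCat.of Axes (Axes ⧸ pr n)) := fun n =>
    hG.quotient_prime mx hm (pr n) (h ⟨pr n, inferInstance⟩) (pr_cond n)
  exact hG.ses₂ sumTau (Submodule.mkQ mx) sumTau_injective (Submodule.mkQ_surjective _)
    exact_sumTau (hG.dsum _ _ hp) hm

/-- The closed point is not weakly visible. -/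
theorem not_visible (S₁ S₂ : Set (Set (PrimeSpectrum Axes)))
    (h₁ : ∀ Z ∈ S₁, IsClosed Z ∧ IsCompact Zᶜ) (h₂ : ∀ Z ∈ S₂, IsClosed Z ∧ IsCompact Zᶜ) :
    ({⟨mx, inferInstance⟩} : Set (PrimeSpectrum Axes)) ≠ ⋃₀ S₁ ∩ (⋃₀ S₂)ᶜ := by
  intro h
  have hm : (⟨mx, inferInstance⟩ : PrimeSpectrum Axes) ∈ ⋃₀ S₁ ∩ (⋃₀ S₂)ᶜ := h ▸ rfl
  obtain ⟨⟨Z, hZ, hmZ⟩, hm2⟩ := hm
  obtain ⟨s, hs⟩ := PrimeSpectrum.isCompact_isOpen_iff.1 ⟨(h₁ Z hZ).2, (h₁ Z hZ).1.isOpen_compl⟩
  have hs' : PrimeSpectrum.zeroLocus (s : Set Axes) = Z := compl_injective hs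
  rw [← hs', PrimeSpectrum.mem_zeroLocus] at hmZ
  have hev : ∀ a : s, ∃ N, ∀ n, N ≤ n → (a : Axes) ∈ pr n := fun a => eventually_mem_pr (hmZ a.2)
  choose N hN using hev
  let n := Finset.univ.sup N
  have h3 : (⟨pr n, inferInstance⟩ : PrimeSpectrum Axes) ∈ ⋃₀ S₁ ∩ (⋃₀ S₂)ᶜ := by
    refine ⟨⟨Z, hZ, ?_⟩, ?_⟩
    · rw [← hs', PrimeSpectrum.mem_zeroLocus]
      intro a ha
      exact hN ⟨a, ha⟩ n (Finset.le_sup (f := N) (Finset.mem_univ _))
    · rintro ⟨Z', hZ', hp⟩
      refine hm2 ⟨Z', hZ', ?_⟩
      exact ((PrimeSpectrum.le_iff_specializes _ _).1 (pr_le_mx n)).mem_closed (h₂ Z' hZ').1 hp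
  rw [← h] at h3
  have h4 : pr n = mx := congrArg PrimeSpectrum.asIdeal h3
  exact tau_not_mem_pr n (h4 ▸ tau_mem_mx n)

end Pool.Agent.MP_e18349_al

end

-- part MP_e18349_al.Main
section

namespace Pool.Agent.MP_e18349_al

open CategoryTheory Limits Function

universe w

theorem good_of_isLocalizing {R : Type} [CommRing R] [HasDerivedCategory.{w} (ModuleCat.{0} R)]
    (P : ObjectProperty (DerivedCategory (ModuleCat.{0} R))) (hP : IsLocalizing P) :
    Good (fun M : ModuleCat.{0} R => P ((DerivedCategory.singleFunctor _ 0).obj M)) := by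
  obtain ⟨h1, h2, h3⟩ := hP
  have tri : ∀ {A B C : Type} [AddCommGroup A] [Module R A] [AddCommGroup B] [Module R B]
      [AddCommGroup C] [Module R C] (f : A →ₗ[R] B) (g : B →ₗ[R] C), Injective f →
      Surjective g → (hfg : Exact f g) →
      (ShortComplex.moduleCatMk f g hfg.linearMap_comp_eq_zero).ShortExact := by
    intro A B C _ _ _ _ _ _ f g hf hg hfg
    exact ModuleCat.shortComplex_shortExact _ hfg hf hg
  refine ⟨fun e h => ?_, fun f g hf hg hfg hB hC => ?_, fun f g hf hg hfg hA hC => ?_,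
    fun f g hf hg hfg hA hB => ?_, fun ι M _ _ hM => ?_⟩
  · exact P.prop_of_iso ((DerivedCategory.singleFunctor _ 0).mapIso e.toModuleIso) h
  · exact P.ext_of_isTriangulatedClosed₁ _ (tri f g hf hg hfg).singleTriangle_distinguished hB hC
  · exact P.ext_of_isTriangulatedClosed₂ _ (tri f g hf hg hfg).singleTriangle_distinguished hA hC
  · exact P.ext_of_isTriangulatedClosed₃ _ (tri f g hf hg hfg).singleTriangle_distinguished hA hB
  · classical
    have := h3 ι
    exact prop_single_of_isColimit P (fun i => ModuleCat.of R (M i))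
      (ModuleCat.coproductCocone _) (ModuleCat.coproductCoconeIsColimit _) hM

end Pool.Agent.MP_e18349_al

end
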